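import Mathlib
import Pool.Agent.H30.Ponag

set_option autoImplicit false

namespace Pool.Agent.Results.MP_74305c_gt.Blow

open Set Filter Topology

variable {X : Type} [TopologicalSpace X]

/-- A move of Alice: a set `Y` and an assignment `V`. -/
abbrev Move (X : Type) := Set X × (X → Set X)

/-- The part of the space not covered before round `n`. -/
def Rest (A : ℕ → Move X) (D : ℕ → Set X) (n : ℕ) : Set X := (⋃ j < n, ⋃ x ∈ D j, (A j).2 x)ᶜ

/-- Alice's move in round `n` is legal. -/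
def AliceLegal (A : ℕ → Move X) (D : ℕ → Set X) (n : ℕ) : Prop :=
  (∀ x ∈ (A n).1, IsOpen ((A n).2 x) ∧ x ∈ (A n).2 x) ∧ (A n).1 ⊆ Rest A D n ∧
    Rest A D n ⊆ ⋃ x ∈ (A n).1, (A n).2 x

/-- Bob's move in round `n` is legal. -/
def BobLegal (A : ℕ → Move X) (D : ℕ → Set X) (n : ℕ) : Prop :=
  D n ⊆ (A n).1 ∧ IsClosed (D n) ∧ DiscreteTopology (D n)

/-- Bob's choices cover the space. -/
def Covers (A : ℕ → Move X) (D : ℕ → Set X) : Prop := ⋃ n, ⋃ x ∈ D n, (A n).2 x = univ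

/-- Totally paracompact spaces. -/
def TotPara (X : Type) [TopologicalSpace X] : Prop :=
  ∀ B : Set (Set X), TopologicalSpace.IsTopologicalBasis B → ∃ C ⊆ B, ⋃₀ C = univ ∧
    ∀ y : X, ∃ N ∈ 𝓝 y, {U ∈ C | (U ∩ N).Nonempty}.Finite

/-- Bob has a winning strategy. -/
def BobWins (X : Type) [TopologicalSpace X] : Prop :=
  ∃ σ : (n : ℕ) → (Fin (n + 1) → Move X) → (Fin n → Set X) → Set X,
    ∀ (A : ℕ → Move X) (D : ℕ → Set X), (∀ n, D n = σ n (fun i => A i) (fun i => D i)) →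
      (∀ n, (∀ k ≤ n, AliceLegal A D k) → BobLegal A D n) ∧ ((∀ n, AliceLegal A D n) → Covers A D)

open Pool.Agent.H30.Ponag in
theorem result : ∃ (X : Type) (_ : TopologicalSpace X), Infinite X ∧ T2Space X ∧ RegularSpace X ∧
    BobWins X ∧ ¬ TotPara X := by
  refine ⟨Y, inferInstance, inferInstance, inferInstance, inferInstance,
    ⟨fun n a _ => bob n (a (Fin.last n)), fun A D hD => ⟨fun n h => ?_, fun h => ?_⟩⟩, fun h => ?_⟩
  · exact (play A D n (fun k _ => hD k) fun k hk => ⟨fun x hx => ((h k hk).1 x hx).1, (h k hk).2⟩).1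
  · exact (play A D 1 (fun k _ => hD k) fun k _ => ⟨fun x hx => ((h k).1 x hx).1, (h k).2⟩).2 one_pos
  · obtain ⟨B, hB, h'⟩ := not_tp
    obtain ⟨C, a, b, c⟩ := h B hB
    exact h' C a b c

end Pool.Agent.Results.MP_74305c_gt.Blow
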